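import Mathlib

/-!
Colouring argument for the exponential graphs of `C_{2d+1}[K_m]`, in terms of families of fibres.
-/

namespace Pool.Agent.H903.Tardif

variable {m n : ℕ}

/-- A map on the fibres `0, 1, 2, ...`, each fibre being a copy of `Fin m`. -/
abbrev Fam (m n : ℕ) := ℕ → Fin m → Fin n

/-- The adjacency of two maps in the exponential graph, written on the fibres `0, ..., 2d`. -/
def R (d : ℕ) (f g : Fam m n) : Prop :=
  (∀ k, k < 2 * d → ∀ i j, f k i ≠ g (k + 1) j) ∧
  (∀ k, k < 2 * d → ∀ i j, f (k + 1) i ≠ g k j) ∧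
  (∀ i j, f 0 i ≠ g (2 * d) j) ∧ (∀ i j, f (2 * d) i ≠ g 0 j) ∧
  (∀ k, k ≤ 2 * d → ∀ i j, i ≠ j → f k i ≠ g k j)

theorem R.symm {d : ℕ} {f g : Fam m n} (h : R d f g) : R d g f :=
  ⟨fun k hk i j e => h.2.1 k hk j i e.symm, fun k hk i j e => h.1 k hk j i e.symm,
    fun i j e => h.2.2.2.1 j i e.symm, fun i j e => h.2.2.1 j i e.symm,
    fun k hk i j hij e => h.2.2.2.2 k hk j i hij.symm e.symm⟩

/-- `f` is injective on each clique `K_{j,j+1}` with `j ≤ k`. -/
def W (k : ℕ) (f : Fam m n) : Prop :=
  ∀ j, j ≤ k → Function.Injective (f j) ∧ Function.Injective (f (j + 1)) ∧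
    ∀ i i', f j i ≠ f (j + 1) i'

/-- The end fibres have disjoint images. -/
def NonS (d : ℕ) (f : Fam m n) : Prop := ∀ i j, f 0 i ≠ f (2 * d) j

/-- Value at a position of the clique `K_{k,k+1}`. -/
def val (k : ℕ) (f : Fam m n) (x : Bool × Fin m) : Fin n :=
  if x.1 then f (k + 1) x.2 else f k x.2

@[simp] theorem val_true (k : ℕ) (f : Fam m n) (i : Fin m) : val k f (true, i) = f (k + 1) i := rfl
@[simp] theorem val_false (k : ℕ) (f : Fam m n) (i : Fin m) : val k f (false, i) = f k i := rfl

/-- Allowed positions at stage `k`. -/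
def InP (s k : ℕ) (x : Bool × Fin m) : Prop := x.1 = true ∨ k * s ≤ x.2.val

/-- positions of the same clique are adjacent. -/
theorem R.val_ne {d k : ℕ} {f g : Fam m n} (h : R d f g) (hk : k < 2 * d)
    {x y : Bool × Fin m} (hxy : x ≠ y) : val k f x ≠ val k g y := by
  obtain ⟨bx, ix⟩ := x
  obtain ⟨byy, iy⟩ := y
  cases bx <;> cases byy
  · simp only [val_false]
    have : ix ≠ iy := fun e => hxy (by rw [e])
    exact h.2.2.2.2 k hk.le ix iy this
  · simp only [val_false, val_true]
    exact h.1 k hk ix iy
  · simp only [val_false, val_true]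
    exact h.2.1 k hk ix iy
  · simp only [val_true]
    have : ix ≠ iy := fun e => hxy (by rw [e])
    exact h.2.2.2.2 (k + 1) hk ix iy this

/-- One move of a chain. -/
def Step (θ : Fin n → (Bool × Fin m) ⊕ Fin m) (q : Fin m → Fin n) (a b : Fin n) : Prop :=
  ∃ i, θ a = Sum.inr i ∧ q i = b

/-- Chains starting outside the image of `q` terminate. -/
theorem exists_terminal (θ : Fin n → (Bool × Fin m) ⊕ Fin m) (hθ : Function.Injective θ)
    (q : Fin m → Fin n) (hq : Function.Injective q) (c : Fin n)
    (hc : ∀ e i, θ e = Sum.inr i → q i ≠ c) :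
    ∃ t x, Relation.ReflTransGen (Step θ q) c t ∧ θ t = Sum.inl x := by
  have key : ∀ N : ℕ, ∀ (S : Finset (Fin n)) (cur : Fin n), n - S.card = N → cur ∉ S →
      (∀ e i a, a ∈ insert cur S → θ e = Sum.inr i → q i = a → e ∈ S) →
      Relation.ReflTransGen (Step θ q) c cur →
      ∃ t x, Relation.ReflTransGen (Step θ q) c t ∧ θ t = Sum.inl x := by
    intro N
    induction N with
    | zero =>
      intro S cur hN hcur _ _
      exfalso
      have h1 : (insert cur S).card = S.card + 1 := Finset.card_insert_of_notMem hcur
      have h2 : (insert cur S).card ≤ n := by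
        simpa using Finset.card_le_univ (insert cur S)
      omega
    | succ N ih =>
      intro S cur hN hcur hcl hreach
      rcases h : θ cur with x | i
      · exact ⟨cur, x, hreach, h⟩
      · have hcard : (insert cur S).card = S.card + 1 := Finset.card_insert_of_notMem hcur
        refine ih (insert cur S) (q i) (by omega) ?_ ?_ (hreach.tail ⟨i, h, rfl⟩)
        · intro hmem
          exact hcur (hcl cur i (q i) hmem h rfl)
        · intro e i' a ha he hqa
          rcases Finset.mem_insert.mp ha with ha | ha
          · subst ha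
            have hii : i' = i := hq hqa
            subst hii
            have : e = cur := hθ (he.trans h.symm)
            rw [this]
            exact Finset.mem_insert_self _ _
          · exact Finset.mem_insert_of_mem (hcl e i' a ha he hqa)
  refine key _ ∅ c rfl (by simp) ?_ Relation.ReflTransGen.refl
  intro e i a ha he hqa
  exfalso
  have : a = c := by simpa using ha
  exact hc e i he (hqa.trans this)

/-- Two chains of adjacent maps never end at the same place. -/
theorem no_meet (θ : Fin n → (Bool × Fin m) ⊕ Fin m) (hθ : Function.Injective θ)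
    (q r : Fin m → Fin n) (hqr : ∀ i j, i ≠ j → q i ≠ r j) (c c' : Fin n) (hcc : c ≠ c')
    (hc : ∀ e i, θ e = Sum.inr i → r i ≠ c) (hc' : ∀ e i, θ e = Sum.inr i → q i ≠ c') (t : Fin n)
    (h1 : Relation.ReflTransGen (Step θ q) c t) (h2 : Relation.ReflTransGen (Step θ r) c' t) :
    False := by
  induction h1 with
  | refl =>
    rcases Relation.ReflTransGen.cases_tail h2 with h | ⟨b, _, i, hb, hi⟩
    · exact hcc h
    · exact hc b i hb hi
  | tail _ hbt ih =>
    obtain ⟨i, hb, hi⟩ := hbt
    rcases Relation.ReflTransGen.cases_tail h2 with h | ⟨b', hb'1, i', hb', hi'⟩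
    · subst h
      exact hc' _ i hb hi
    · have hii : i = i' := by
        by_contra hne
        exact hqr i i' hne (hi.trans hi'.symm)
      subst hii
      have := hθ (hb.trans hb'.symm)
      subst this
      exact ih hb'1

/-- The reference labelling of stage `k`. -/
theorem exists_theta (s k : ℕ) (hn : n = 2 * m + s) (hk : (k + 1) * s ≤ m) :
    ∃ θ : Fin n → (Bool × Fin m) ⊕ Fin m, Function.Injective θ ∧
      (∀ c x, θ c = Sum.inl x → InP s k x) ∧ (∀ c i, θ c = Sum.inr i → i.val < (k + 1) * s) := by
  have hks : (k + 1) * s = k * s + s := by ring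
  have hle : k * s + s ≤ m := by omega
  generalize hK : k * s = K at *
  refine ⟨fun c => if h1 : c.val < m then Sum.inl (true, ⟨c.val, h1⟩) else
      if h2 : c.val < 2 * m - K then Sum.inl (false, ⟨c.val - m + K, by omega⟩) else
      Sum.inr ⟨c.val - (2 * m - K), by have := c.isLt; omega⟩, ?_, ?_, ?_⟩
  · intro a b hab
    apply Fin.ext
    simp only at hab
    split_ifs at hab <;> simp at hab <;> omega
  · intro c x hx
    simp only at hx
    split_ifs at hx with h1 h2
    · left
      have := Sum.inl.inj hx
      rw [← this]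
    · right
      have := Sum.inl.inj hx
      rw [← this, hK]
      simp
  · intro c i hi
    have hc := c.isLt
    simp only at hi
    split_ifs at hi with h1 h2
    have := Sum.inr.inj hi
    rw [← this]
    simp only
    omega

/-- The statement of stage `k`. -/
def Stage (m n d s k : ℕ) : Prop :=
  ∃ pos : Fam m n → Bool × Fin m, (∀ f, W k f → NonS d f → InP s k (pos f)) ∧
    ∀ f g, W k f → NonS d f → W k g → NonS d g → R d f g → pos f = pos g →
      val k f (pos f) ≠ val k g (pos g)

theorem stage_step (d s k : ℕ) (hm : 0 < m) (hn : n = 2 * m + s) (hk : (k + 1) * s ≤ m)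
    (hkd : k + 2 ≤ 2 * d) (ih : Stage m n d s (k + 1)) : Stage m n d s k := by
  classical
  obtain ⟨pos', hP', hpos'⟩ := ih
  obtain ⟨θ, hθ, hθP, hθQ⟩ := exists_theta (m := m) (n := n) s k hn hk
  -- start colours
  let Start : Fam m n → Fin n → Prop := fun f c =>
    (∃ i i', i ≠ i' ∧ f (k + 2) i = c ∧ f (k + 2) i' = c) ∨
      (W (k + 1) f ∧ val (k + 1) f (pos' f) = c)
  let A : Fam m n → Bool × Fin m → Prop := fun f x =>
    x.1 = true ∧ ∃ i, f (k + 1) x.2 = f (k + 2) i
  let Spec : Fam m n → Bool × Fin m → Prop := fun f x =>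
    A f x ∨ ∃ c t, Start f c ∧ Relation.ReflTransGen (Step θ (f (k + 1))) c t ∧ θ t = Sum.inl x
  -- start colours avoid the low part of fibre k+1 of adjacent maps
  have hstart : ∀ f g, NonS d f → R d f g → ∀ c, Start f c →
      ∀ e i, θ e = Sum.inr i → g (k + 1) i ≠ c := by
    intro f g hS hR c hc e i he hgi
    have hi := hθQ e i he
    rcases hc with ⟨j, j', _, hj, _⟩ | ⟨hW, hc⟩
    · exact hR.2.1 (k + 1) (by omega) j i (hj.trans hgi.symm)
    · have hin := hP' f hW hS
      by_cases hx : pos' f = (false, i)
      · rw [hx] at hin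
        rcases hin with h | h
        · simp at h
        · simp only at h
          omega
      · exact hR.val_ne (k := k + 1) (by omega) hx (hc.trans hgi.symm)
  -- start colours of adjacent maps differ
  have hdiff : ∀ f g, NonS d f → NonS d g → R d f g → ∀ c c', Start f c → Start g c' → c ≠ c' := by
    intro f g hSf hSg hR c c' hc hc' hcc
    subst hcc
    -- a position for each
    have aux : ∀ f g : Fam m n, R d f g → (∃ i i', i ≠ i' ∧ f (k + 2) i = c ∧ f (k + 2) i' = c) →
        ∀ y : Bool × Fin m, val (k + 1) g y = c → False := by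
      intro f g hR hf y hy
      obtain ⟨i, i', hii, hi, hi'⟩ := hf
      by_cases hyi : (true, i) = y
      · have : (true, i') ≠ y := by
          rw [← hyi]
          intro e
          exact hii (by simpa using e.symm)
        exact hR.val_ne (k := k + 1) (by omega) this (hi'.trans hy.symm)
      · exact hR.val_ne (k := k + 1) (by omega) hyi (hi.trans hy.symm)
    rcases hc with hc | ⟨hWf, hc⟩
    · rcases hc' with hc' | ⟨hWg, hc'⟩
      · obtain ⟨j, _, _, hj, _⟩ := hc'
        exact aux f g hR hc (true, j) hj
      · exact aux f g hR hc _ hc'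
    · rcases hc' with hc' | ⟨hWg, hc'⟩
      · exact aux g f hR.symm hc' _ hc
      · by_cases hpp : pos' f = pos' g
        · exact hpos' f g hWf hSf hWg hSg hR hpp (hc.trans hc'.symm)
        · exact hR.val_ne (k := k + 1) (by omega) hpp (hc.trans hc'.symm)
  -- existence
  have hex : ∀ f, W k f → NonS d f → ∃ x, Spec f x := by
    intro f hW hS
    obtain ⟨hinj0, hinj1, hdisj⟩ := hW k le_rfl
    by_cases hA : ∃ j i, f (k + 1) j = f (k + 2) i
    · obtain ⟨j, i, hji⟩ := hA
      exact ⟨(true, j), Or.inl ⟨rfl, i, hji⟩⟩
    · push Not at hA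
      have hst : ∃ c, Start f c ∧ ∀ e i, θ e = Sum.inr i → f (k + 1) i ≠ c := by
        by_cases hB : ∃ i i', i ≠ i' ∧ f (k + 2) i = f (k + 2) i'
        · obtain ⟨i, i', hii, he⟩ := hB
          refine ⟨f (k + 2) i, Or.inl ⟨i, i', hii, rfl, he.symm⟩, ?_⟩
          intro e j _ hj
          exact hA j i hj
        · push Not at hB
          have hinj2 : Function.Injective (f (k + 2)) := by
            intro a b hab
            by_contra hne
            exact hB a b hne hab
          have hW' : W (k + 1) f := by
            intro j hj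
            rcases Nat.lt_or_ge j (k + 1) with h | h
            · exact hW j (by omega)
            · have : j = k + 1 := by omega
              subst this
              exact ⟨hinj1, hinj2, hA⟩
          refine ⟨val (k + 1) f (pos' f), Or.inr ⟨hW', rfl⟩, ?_⟩
          intro e i he hval
          have hin := hP' f hW' hS
          have hi := hθQ e i he
          rcases hp : pos' f with ⟨b, j⟩
          rw [hp] at hval hin
          cases b
          · simp only [val_false] at hval
            have : i = j := hinj1 hval
            subst this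
            rcases hin with h | h
            · simp at h
            · simp only at h
              omega
          · simp only [val_true] at hval
            exact hA i j hval
      obtain ⟨c, hc1, hc2⟩ := hst
      obtain ⟨t, x, ht, hx⟩ := exists_terminal θ hθ (f (k + 1)) hinj1 c hc2
      exact ⟨x, Or.inr ⟨c, t, hc1, ht, hx⟩⟩
  refine ⟨fun f => if h : ∃ x, Spec f x then h.choose else (true, ⟨0, hm⟩), ?_, ?_⟩
  · intro f hW hS
    have h := hex f hW hS
    simp only [dif_pos h]
    rcases h.choose_spec with hA | ⟨c, t, _, _, hx⟩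
    · exact Or.inl hA.1
    · exact hθP t _ hx
  · intro f g hWf hSf hWg hSg hR
    have hf := hex f hWf hSf
    have hg := hex g hWg hSg
    simp only [dif_pos hf, dif_pos hg]
    have hfs := hf.choose_spec
    have hgs := hg.choose_spec
    generalize hf.choose = x at *
    generalize hg.choose = y at *
    intro hxy
    subst hxy
    have safe : ∀ f g : Fam m n, R d f g → A f x → val k f x ≠ val k g x := by
      intro f g hR hA
      obtain ⟨b, j⟩ := x
      obtain ⟨hb, i, hi⟩ := hA
      simp only at hb hi
      subst hb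
      simp only [val_true]
      rw [hi]
      exact hR.2.1 (k + 1) (by omega) i j
    rcases hfs with hA | ⟨c, t, hc, ht, hx⟩
    · exact safe f g hR hA
    · rcases hgs with hA' | ⟨c', t', hc', ht', hx'⟩
      · exact (safe g f hR.symm hA').symm
      · exfalso
        have htt : t = t' := hθ (hx.trans hx'.symm)
        subst htt
        exact no_meet θ hθ (f (k + 1)) (g (k + 1)) (hR.2.2.2.2 (k + 1) (by omega)) c c'
          (hdiff f g hSf hSg hR c c' hc hc') (hstart f g hSf hR c hc)
          (hstart g f hSg hR.symm c' hc') t ht ht'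

/-- No map is injective on all the cliques `K_{j,j+1}`, `j < 2d`, with disjoint end fibres. -/
theorem final_empty (d s : ℕ) (hd : 2 ≤ d) (hm : 0 < m) (hn : n = 2 * m + s)
    (hs : (2 * d - 1) * s ≤ m) (f : Fam m n) (hW : W (2 * d - 1) f) (hS : NonS d f) : False := by
  classical
  let I : ℕ → Finset (Fin n) := fun j => Finset.univ.image (f j)
  have hcard : ∀ j, j ≤ 2 * d → (I j).card = m := by
    intro j hj
    have hinj : Function.Injective (f j) := by
      rcases Nat.eq_zero_or_pos j with h | h
      · subst h
        exact (hW 0 (by omega)).1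
      · obtain ⟨j', rfl⟩ : ∃ j', j = j' + 1 := ⟨j - 1, by omega⟩
        exact (hW j' (by omega)).2.1
    simp only [I]
    rw [Finset.card_image_of_injective _ hinj]
    simp
  have hdis : ∀ j, j < 2 * d → Disjoint (I j) (I (j + 1)) := by
    intro j hj
    rw [Finset.disjoint_left]
    intro a ha hb
    simp only [I, Finset.mem_image, Finset.mem_univ, true_and] at ha hb
    obtain ⟨i, hi⟩ := ha
    obtain ⟨i', hi'⟩ := hb
    exact (hW j (by omega)).2.2 i i' (hi.trans hi'.symm)
  have hstep : ∀ j, j + 2 ≤ 2 * d → (I (j + 2) \ I j).card ≤ s := by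
    intro j hj
    have h1 : (I j ∪ I (j + 1)).card = 2 * m := by
      rw [Finset.card_union_of_disjoint (hdis j (by omega)), hcard j (by omega),
        hcard (j + 1) (by omega)]
      ring
    have h2 : Disjoint (I (j + 2) \ I j) (I j ∪ I (j + 1)) := by
      rw [Finset.disjoint_union_right]
      refine ⟨Finset.sdiff_disjoint, ?_⟩
      exact Finset.disjoint_of_subset_left Finset.sdiff_subset (hdis (j + 1) (by omega)).symm
    have h3 : ((I (j + 2) \ I j) ∪ (I j ∪ I (j + 1))).card ≤ n := by
      simpa using Finset.card_le_univ ((I (j + 2) \ I j) ∪ (I j ∪ I (j + 1)))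
    rw [Finset.card_union_of_disjoint h2, h1] at h3
    omega
  have hall : ∀ j, j ≤ d → (I (2 * j) \ I 0).card ≤ j * s := by
    intro j
    induction j with
    | zero => intro _; simp
    | succ j ih =>
      intro hj
      have h1 := ih (by omega)
      have h2 := hstep (2 * j) (by omega)
      have hsub : I (2 * (j + 1)) \ I 0 ⊆ (I (2 * j + 2) \ I (2 * j)) ∪ (I (2 * j) \ I 0) := by
        intro a ha
        have e : 2 * (j + 1) = 2 * j + 2 := by ring
        rw [e] at ha
        simp only [Finset.mem_sdiff, Finset.mem_union] at ha ⊢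
        tauto
      have h3 := (Finset.card_le_card hsub).trans (Finset.card_union_le _ _)
      have h4 : (j + 1) * s = j * s + s := by ring
      omega
  have h1 := hall d le_rfl
  have h2 : I (2 * d) \ I 0 = I (2 * d) := by
    rw [Finset.sdiff_eq_self_iff_disjoint, Finset.disjoint_left]
    intro a ha hb
    simp only [I, Finset.mem_image, Finset.mem_univ, true_and] at ha hb
    obtain ⟨i, hi⟩ := ha
    obtain ⟨i', hi'⟩ := hb
    exact hS i' i (hi'.trans hi.symm)
  rw [h2, hcard (2 * d) le_rfl] at h1
  obtain ⟨e, rfl⟩ : ∃ e, d = e + 2 := ⟨d - 2, by omega⟩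
  have h3 : (2 * (e + 2) - 1) * s = (e + 2) * s + (e + 1) * s := by
    have : 2 * (e + 2) - 1 = (e + 2) + (e + 1) := by omega
    rw [this]
    ring
  have h4 : (e + 1) * s = 0 := by omega
  have h5 : s = 0 := by
    rcases Nat.mul_eq_zero.mp h4 with h | h
    · omega
    · exact h
  subst h5
  omega

theorem stage_zero (d s : ℕ) (hd : 2 ≤ d) (hm : 0 < m) (hn : n = 2 * m + s)
    (hs : (2 * d - 1) * s ≤ m) : Stage m n d s 0 := by
  have key : ∀ k, k ≤ 2 * d - 1 → Stage m n d s (2 * d - 1 - k) := by
    intro k
    induction k with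
    | zero =>
      intro _
      refine ⟨fun _ => (true, ⟨0, hm⟩), ?_, ?_⟩
      · intro f hW hS
        exact (final_empty d s hd hm hn hs f hW hS).elim
      · intro f g hW hS
        exact (final_empty d s hd hm hn hs f hW hS).elim
    | succ k ih =>
      intro hk
      have h := ih (by omega)
      have e : 2 * d - 1 - k = (2 * d - 1 - (k + 1)) + 1 := by omega
      rw [e] at h
      refine stage_step d s _ hm hn ?_ (by omega) h
      calc (2 * d - 1 - (k + 1) + 1) * s ≤ (2 * d - 1) * s := by
            apply Nat.mul_le_mul_right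
            omega
        _ ≤ m := hs
  have := key (2 * d - 1) le_rfl
  simpa using this

/-- The colouring. -/
theorem exists_colouring (d : ℕ) (hd : 2 ≤ d) (hm : 0 < m)
    (hs : (2 * d - 1) * (n - 2 * m) ≤ m) :
    ∃ col : Fam m n → Fin n, ∀ f g, R d f g → col f ≠ col g := by
  classical
  -- a handle of colour `c`: a repeated colour on the clique K_{01}
  let Rep : Fam m n → Fin n → Prop := fun f c => ∃ x y : Bool × Fin m, x ≠ y ∧
    val 0 f x = c ∧ val 0 f y = c
  have hrep : ∀ f g, R d f g → ∀ c, Rep f c → ∀ z, val 0 g z ≠ c := by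
    intro f g hR c hc z hz
    obtain ⟨x, y, hxy, hx, hy⟩ := hc
    by_cases h : x = z
    · subst h
      exact hR.val_ne (k := 0) (by omega) hxy.symm (hy.trans hz.symm)
    · exact hR.val_ne (k := 0) (by omega) h (hx.trans hz.symm)
  have hninj : ∀ f : Fam m n, ¬ Function.Injective (val 0 f) → ∃ c, Rep f c := by
    intro f hf
    rw [Function.not_injective_iff] at hf
    obtain ⟨x, y, hxy, hne⟩ := hf
    exact ⟨val 0 f x, x, y, hne, rfl, hxy.symm⟩
  rcases Nat.lt_or_ge n (2 * m) with hlt | hge
  · have hnone : ∀ f : Fam m n, ∃ c, Rep f c := by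
      intro f
      apply hninj
      intro hinj
      have := Fintype.card_le_of_injective _ hinj
      simp at this
      omega
    choose col hcol using hnone
    refine ⟨col, ?_⟩
    intro f g hR he
    obtain ⟨x, _, _, hx, _⟩ := hcol g
    exact hrep f g hR _ (hcol f) x (hx.trans he.symm)
  · obtain ⟨pos, _, hpos⟩ := stage_zero (m := m) (n := n) d (n - 2 * m) hd hm (by omega) hs
    -- the safe positions
    let Safe : Fam m n → Bool × Fin m → Prop := fun f x => x.1 = false ∧ ∃ j, f 0 x.2 = f (2 * d) j
    let Good : Fam m n → Bool × Fin m → Prop := fun f x => Safe f x ∨ (W 0 f ∧ NonS d f ∧ pos f = x)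
    have hex : ∀ f, ∃ c, Rep f c ∨ ∃ x, Good f x ∧ val 0 f x = c := by
      intro f
      by_cases hinj : Function.Injective (val 0 f)
      · have hW : W 0 f := by
          intro j hj
          have : j = 0 := by omega
          subst this
          refine ⟨?_, ?_, ?_⟩
          · intro a b hab
            have := @hinj (false, a) (false, b) hab
            simpa using this
          · intro a b hab
            have := @hinj (true, a) (true, b) hab
            simpa using this
          · intro a b hab
            have := @hinj (false, a) (true, b) hab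
            simp at this
        by_cases hS : NonS d f
        · exact ⟨val 0 f (pos f), Or.inr ⟨pos f, Or.inr ⟨hW, hS, rfl⟩, rfl⟩⟩
        · unfold NonS at hS
          push Not at hS
          obtain ⟨i, j, hij⟩ := hS
          exact ⟨f 0 i, Or.inr ⟨(false, i), Or.inl ⟨rfl, j, hij⟩, rfl⟩⟩
      · obtain ⟨c, hc⟩ := hninj f hinj
        exact ⟨c, Or.inl hc⟩
    choose col hcol using hex
    refine ⟨col, ?_⟩
    intro f g hR he
    have hsafe : ∀ f g : Fam m n, R d f g → ∀ x, Safe f x → val 0 f x ≠ val 0 g x := by
      intro f g hR x hx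
      obtain ⟨b, i⟩ := x
      obtain ⟨hb, j, hj⟩ := hx
      simp only at hb hj
      subst hb
      simp only [val_false]
      rw [hj]
      exact hR.2.2.2.1 j i
    rcases hcol f with h1 | ⟨x, hx, hxc⟩
    · rcases hcol g with h2 | ⟨y, _, hyc⟩
      · obtain ⟨y, _, _, hy, _⟩ := h2
        exact hrep f g hR _ h1 y (hy.trans he.symm)
      · exact hrep f g hR _ h1 y (hyc.trans he.symm)
    · rcases hcol g with h2 | ⟨y, hy, hyc⟩
      · exact hrep g f hR.symm _ h2 x (hxc.trans he)
      · have hxy : x = y := by
          by_contra hne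
          exact hR.val_ne (k := 0) (by omega) hne (hxc.trans (he.trans hyc.symm))
        subst hxy
        have hval : val 0 f x = val 0 g x := hxc.trans (he.trans hyc.symm)
        rcases hx with hx | ⟨hWf, hSf, hx⟩
        · exact hsafe f g hR x hx hval
        · rcases hy with hy | ⟨hWg, hSg, hy⟩
          · exact hsafe g f hR.symm x hy hval.symm
          · have hh := hpos f g hWf hSf hWg hSg hR (hx.trans hy.symm)
            rw [hx, hy] at hh
            exact hh hval

end Pool.Agent.H903.Tardif
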